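import Mathlib

/-!
# MP_2f3180_ag, Q1

An even symmetric function, strictly positive on the unit sphere of `ℓ²`, all of whose multiples
by powers of `p₂` have a negative coefficient.
-/

namespace Pool.Agent.Results.MP_2f3180_ag.StrictPositivity

open MvPowerSeries

open Classical in
/-- The power sum `p_n = ∑_i X_i^n`, `n ≥ 1`, as a formal power series in `X_0, X_1, …`. -/
noncomputable def psum (n : ℕ) : MvPowerSeries ℕ ℝ :=
  fun m => if ∃ i, m = Finsupp.single i n then 1 else 0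

/-- The even symmetric function `g(p_2, p_4, p_6, …)`; the variable `j` stands for
`p_{2(j+1)}`. -/
noncomputable def toSeries (g : MvPolynomial ℕ ℝ) : MvPowerSeries ℕ ℝ :=
  MvPolynomial.aeval (fun j => psum (2 * (j + 1))) g

/-- The value `g(p_2(x), p_4(x), …)` at a sequence `x`. -/
noncomputable def value (g : MvPolynomial ℕ ℝ) (x : ℕ → ℝ) : ℝ :=
  MvPolynomial.eval (fun j => ∑' i, x i ^ (2 * (j + 1))) g

/-- `g = 16 (p_4³ - p_6²) + (4 p_4 - p_2²)² p_2²` -/
noncomputable def g₀ : MvPolynomial ℕ ℝ :=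
  16 * (MvPolynomial.X 1 ^ 3 - MvPolynomial.X 2 ^ 2) +
    (4 * MvPolynomial.X 1 - MvPolynomial.X 0 ^ 2) ^ 2 * MvPolynomial.X 0 ^ 2

theorem coeff_psum_mul (n : ℕ) (hn : 0 < n) (m : ℕ →₀ ℕ) (G : MvPowerSeries ℕ ℝ) :
    coeff m (psum n * G) = ∑ i ∈ m.support.filter (fun i => n ≤ m i),
      coeff (m - Finsupp.single i n) G := by
  classical
  rw [coeff_mul]
  symm
  refine Finset.sum_of_injOn (fun i => (Finsupp.single i n, m - Finsupp.single i n)) ?_ ?_ ?_ ?_
  · intro i _ j _ hij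
    simp only [Prod.mk.injEq] at hij
    exact (Finsupp.single_left_inj hn.ne').mp hij.1
  · intro i hi
    simp only [Finset.coe_filter, Set.mem_ofPred_eq] at hi
    simp only [Finset.mem_coe, Finset.HasAntidiagonal.mem_antidiagonal]
    rw [add_comm]
    apply tsub_add_cancel_of_le
    rw [Finsupp.single_le_iff]
    exact hi.2
  · rintro ⟨p, q⟩ hpq hp'
    have hsum := Finset.HasAntidiagonal.mem_antidiagonal.mp hpq
    simp only at hsum
    have : coeff p (psum n) = 0 := by
      show psum n p = 0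
      unfold psum
      rw [if_neg]
      rintro ⟨i, rfl⟩
      apply hp'
      have hle : n ≤ m i := by
        rw [← hsum]; simp
      refine ⟨i, ?_, ?_⟩
      · simp only [Finset.coe_filter, Set.mem_ofPred_eq, Finsupp.mem_support_iff]
        exact ⟨by omega, hle⟩
      · simp only [Prod.mk.injEq, true_and]
        rw [← hsum]
        simp
    simp only [this, zero_mul]
  · intro i _
    have : coeff (Finsupp.single i n) (psum n) = 1 := by
      show psum n _ = 1
      unfold psum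
      rw [if_pos ⟨i, rfl⟩]
    simp only [this, one_mul]

/-- the exponent `(2b; 2 on S)` -/
noncomputable def mon (b : ℕ) (S : Finset ℕ) : ℕ →₀ ℕ :=
  Finsupp.single 0 (2 * b) + ∑ i ∈ S, Finsupp.single i 2

theorem mon_apply_zero {b : ℕ} {S : Finset ℕ} (h : 0 ∉ S) : mon b S 0 = 2 * b := by
  rw [mon, Finsupp.add_apply, Finsupp.finsetSum_apply, Finset.sum_eq_zero]
  · simp
  · intro i hi
    rw [Finsupp.single_apply, if_neg]
    rintro rfl
    exact h hi

theorem mon_apply {b : ℕ} {S : Finset ℕ} {i : ℕ} (hi : i ≠ 0) :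
    mon b S i = if i ∈ S then 2 else 0 := by
  rw [mon, Finsupp.add_apply, Finsupp.finsetSum_apply, Finsupp.single_apply,
    if_neg (Ne.symm hi), zero_add]
  simp [Finsupp.single_apply]

theorem mon_sub_zero {b r : ℕ} {S : Finset ℕ} (hr : r ≤ b) :
    mon b S - Finsupp.single 0 (2 * r) = mon (b - r) S := by
  have : mon b S = Finsupp.single 0 (2 * r) + mon (b - r) S := by
    rw [mon, mon, ← add_assoc, ← Finsupp.single_add]
    congr 2
    omega
  rw [this, add_tsub_cancel_left]

theorem mon_sub {b i : ℕ} {S : Finset ℕ} (hi : i ∈ S) :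
    mon b S - Finsupp.single i 2 = mon b (S.erase i) := by
  have : mon b S = Finsupp.single i 2 + mon b (S.erase i) := by
    rw [mon, mon, ← Finset.add_sum_erase S _ hi]
    abel
  rw [this, add_tsub_cancel_left]

theorem lemA {r b : ℕ} {S : Finset ℕ} (hr : 2 ≤ r) (hb : r ≤ b) (h0 : 0 ∉ S)
    (G : MvPowerSeries ℕ ℝ) :
    coeff (mon b S) (psum (2 * r) * G) = coeff (mon (b - r) S) G := by
  rw [coeff_psum_mul _ (by omega)]
  have : (mon b S).support.filter (fun i => 2 * r ≤ mon b S i) = {0} := by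
    ext i
    simp only [Finset.mem_filter, Finsupp.mem_support_iff, Finset.mem_singleton]
    constructor
    · rintro ⟨_, h⟩
      by_contra hi
      rw [mon_apply hi] at h
      split_ifs at h <;> omega
    · rintro rfl
      rw [mon_apply_zero h0]
      omega
  rw [this, Finset.sum_singleton, mon_sub_zero hb]

theorem lemB {b : ℕ} {S : Finset ℕ} (h0 : 0 ∉ S) (G : MvPowerSeries ℕ ℝ) :
    coeff (mon b S) (psum 2 * G) = (if 1 ≤ b then coeff (mon (b - 1) S) G else 0) +
      ∑ i ∈ S, coeff (mon b (S.erase i)) G := by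
  classical
  rw [coeff_psum_mul _ (by omega)]
  have : (mon b S).support.filter (fun i => 2 ≤ mon b S i) =
      if 1 ≤ b then insert 0 S else S := by
    ext i
    simp only [Finset.mem_filter, Finsupp.mem_support_iff]
    rcases eq_or_ne i 0 with rfl | hi
    · rw [mon_apply_zero h0]
      split_ifs with hb
      · simp; omega
      · simp [h0]; omega
    · rw [mon_apply hi]
      split_ifs with hS hb hb <;> simp [hi, hS]
  rw [this]
  split_ifs with hb
  · rw [Finset.sum_insert h0]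
    congr 1
    · rw [show (2 : ℕ) = 2 * 1 by rfl, mon_sub_zero hb]
    · exact Finset.sum_congr rfl fun i hi => by rw [mon_sub hi]
  · rw [zero_add]
    exact Finset.sum_congr rfl fun i hi => by rw [mon_sub hi]

theorem coeff_pow (K : ℕ) : ∀ (b : ℕ) (S : Finset ℕ), 0 ∉ S → K = b + S.card →
    coeff (mon b S) (psum 2 ^ K) = (K.factorial : ℝ) / (b.factorial : ℝ) := by
  induction K with
  | zero =>
    intro b S h0 hK
    have hb : b = 0 := by omega
    have hS : S = ∅ := by
      rw [← Finset.card_eq_zero]; omega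
    subst hb hS
    simp [mon]
  | succ K ih =>
    intro b S h0 hK
    rw [pow_succ', lemB h0]
    have h1 : (if 1 ≤ b then coeff (mon (b - 1) S) (psum 2 ^ K) else 0) =
        (b : ℝ) * ((K.factorial : ℝ) / (b.factorial : ℝ)) := by
      rcases b with _ | b
      · simp
      · rw [if_pos (by omega), Nat.add_sub_cancel, ih b S h0 (by omega), Nat.factorial_succ]
        have : (b.factorial : ℝ) ≠ 0 := by exact_mod_cast b.factorial_ne_zero
        push_cast
        field_simp
    have h2 : ∑ i ∈ S, coeff (mon b (S.erase i)) (psum 2 ^ K) =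
        (S.card : ℝ) * ((K.factorial : ℝ) / (b.factorial : ℝ)) := by
      rw [Finset.sum_congr rfl fun i hi => ih b (S.erase i)
        (fun h => h0 (Finset.mem_of_mem_erase h)) (by rw [Finset.card_erase_of_mem hi]
                                                      have := Finset.card_pos.mpr ⟨i, hi⟩
                                                      omega)]
      rw [Finset.sum_const, nsmul_eq_mul]
    rw [h1, h2, Nat.factorial_succ]
    have : ((K + 1 : ℕ) : ℝ) = (b : ℝ) + S.card := by rw [hK]; push_cast; ring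
    rw [Nat.cast_mul, this]
    ring

theorem toSeries_g₀ : toSeries g₀ = 16 * (psum 4 ^ 3 - psum 6 ^ 2) +
    (4 * psum 4 - psum 2 ^ 2) ^ 2 * psum 2 ^ 2 := by
  simp [toSeries, g₀]

theorem coeff_neg {a : ℕ} (ha : 6 ≤ a) {S : Finset ℕ} (h0 : 0 ∉ S) (hS : S.card = a) :
    coeff (mon a S) (psum 2 ^ (2 * a - 6) * toSeries g₀) < 0 := by
  set K := 2 * a - 6 with hK
  have e : psum 2 ^ K * toSeries g₀ =
      C 16 * (psum 4 * (psum 4 * (psum 4 * psum 2 ^ K))) - C 16 * (psum 6 * (psum 6 * psum 2 ^ K)) +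
      C 16 * (psum 4 * (psum 4 * psum 2 ^ (K + 2))) - C 8 * (psum 4 * psum 2 ^ (K + 4)) +
      psum 2 ^ (K + 6) := by
    rw [toSeries_g₀]
    have h16 : (C 16 : MvPowerSeries ℕ ℝ) = 16 := map_ofNat C 16
    have h8 : (C 8 : MvPowerSeries ℕ ℝ) = 8 := map_ofNat C 8
    rw [h16, h8]
    ring
  have A4 : ∀ b, 2 ≤ b → ∀ G, coeff (mon b S) (psum 4 * G) = coeff (mon (b - 2) S) G :=
    fun b hb G => lemA (r := 2) le_rfl hb h0 G
  have A6 : ∀ b, 3 ≤ b → ∀ G, coeff (mon b S) (psum 6 * G) = coeff (mon (b - 3) S) G :=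
    fun b hb G => lemA (r := 3) (by norm_num) hb h0 G
  rw [e, map_add, map_sub, map_add, map_sub, coeff_C_mul, coeff_C_mul, coeff_C_mul, coeff_C_mul,
    A4 _ (by omega), A4 _ (by omega), A4 _ (by omega), A6 _ (by omega), A6 _ (by omega),
    A4 _ (by omega), A4 _ (by omega), A4 _ (by omega)]
  have e1 : a - 2 - 2 - 2 = a - 3 - 3 := by omega
  rw [e1, sub_self, zero_add, coeff_pow _ _ S h0 (by omega), coeff_pow _ _ S h0 (by omega),
    coeff_pow _ _ S h0 (by omega)]
  obtain ⟨c, rfl⟩ : ∃ c, a = c + 4 := ⟨a - 4, by omega⟩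
  have k2 : K + 2 = 2 * c + 4 := by omega
  have k4 : K + 4 = (2 * c + 4) + 1 + 1 := by omega
  have k6 : K + 6 = (2 * c + 4) + 1 + 1 + 1 + 1 := by omega
  have c1 : c + 4 - 2 - 2 = c := by omega
  have c2 : c + 4 - 2 = c + 1 + 1 := by omega
  have c3 : c + 4 = c + 1 + 1 + 1 + 1 := by omega
  rw [k2, k4, k6, c1, c2, c3]
  simp only [Nat.factorial_succ (2 * c + 4), Nat.factorial_succ (2 * c + 4 + 1),
    Nat.factorial_succ (2 * c + 4 + 1 + 1), Nat.factorial_succ (2 * c + 4 + 1 + 1 + 1),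
    Nat.factorial_succ c, Nat.factorial_succ (c + 1), Nat.factorial_succ (c + 1 + 1),
    Nat.factorial_succ (c + 1 + 1 + 1)]
  have f1 : (0 : ℝ) < ((2 * c + 4).factorial : ℝ) := by exact_mod_cast (2 * c + 4).factorial_pos
  have f2 : (0 : ℝ) < (c.factorial : ℝ) := by exact_mod_cast c.factorial_pos
  push_cast
  have hc : (2 : ℝ) ≤ c := by exact_mod_cast (show 2 ≤ c by omega)
  have key : (16 * (((2 * c + 4).factorial : ℝ) / (c.factorial : ℝ)) -
      8 * (((2 * c + 4 + 1 + 1) * ((2 * c + 4 + 1) * ((2 * c + 4).factorial : ℝ))) /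
        (((c : ℝ) + 1 + 1) * (((c : ℝ) + 1) * (c.factorial : ℝ)))) +
      ((2 * c + 4 + 1 + 1 + 1 + 1) * ((2 * c + 4 + 1 + 1 + 1) * ((2 * c + 4 + 1 + 1) *
        ((2 * c + 4 + 1) * ((2 * c + 4).factorial : ℝ))))) /
        (((c : ℝ) + 1 + 1 + 1 + 1) * (((c : ℝ) + 1 + 1 + 1) * (((c : ℝ) + 1 + 1) *
          (((c : ℝ) + 1) * (c.factorial : ℝ)))))) =
      - ((2 * c + 4).factorial : ℝ) / (c.factorial : ℝ) * ((32 * c + 68) /
        (((c : ℝ) + 1) * (c + 2))) := by
    field_simp
    ring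
  rw [key]
  have : 0 < ((2 * c + 4).factorial : ℝ) / (c.factorial : ℝ) * ((32 * c + 68) /
        (((c : ℝ) + 1) * (c + 2))) := by positivity
  have e3 : - ((2 * c + 4).factorial : ℝ) / (c.factorial : ℝ) * ((32 * c + 68) /
        (((c : ℝ) + 1) * (c + 2))) = -(((2 * c + 4).factorial : ℝ) / (c.factorial : ℝ) *
          ((32 * c + 68) / (((c : ℝ) + 1) * (c + 2)))) := by ring
  rw [e3]
  linarith

theorem nonneg_mul {G : MvPowerSeries ℕ ℝ} (h : ∀ m, 0 ≤ coeff m G) (j : ℕ) (m : ℕ →₀ ℕ) :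
    0 ≤ coeff m (psum 2 ^ j * G) := by
  induction j generalizing m with
  | zero => simpa using h m
  | succ j ih =>
    rw [pow_succ', mul_assoc, coeff_psum_mul 2 (by norm_num)]
    exact Finset.sum_nonneg fun i _ => ih _

theorem exists_neg (k : ℕ) : ∃ m, coeff m (psum 2 ^ k * toSeries g₀) < 0 := by
  by_contra hcon
  push Not at hcon
  have h := nonneg_mul hcon (k + 6)
  have h0 : (0 : ℕ) ∉ (Finset.range (k + 6)).map ⟨Nat.succ, Nat.succ_injective⟩ := by simp
  have h2 := coeff_neg (a := k + 6) (by omega) h0 (by simp)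
  have h3 := h (mon (k + 6) ((Finset.range (k + 6)).map ⟨Nat.succ, Nat.succ_injective⟩))
  rw [← mul_assoc, ← pow_add] at h3
  have e : k + 6 + k = 2 * (k + 6) - 6 := by omega
  rw [e] at h3
  linarith

theorem value_g₀ (x : ℕ → ℝ) : value g₀ x =
    16 * ((∑' i, x i ^ 4) ^ 3 - (∑' i, x i ^ 6) ^ 2) +
      (4 * (∑' i, x i ^ 4) - (∑' i, x i ^ 2) ^ 2) ^ 2 * (∑' i, x i ^ 2) ^ 2 := by
  simp [value, g₀]

theorem positive (x : ℕ → ℝ) (hs : Summable fun i => x i ^ 2) (h1 : ∑' i, x i ^ 2 = 1) :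
    0 < value g₀ x := by
  set y : ℕ → ℝ := fun i => x i ^ 2 with hy
  have y0 : ∀ i, 0 ≤ y i := fun i => sq_nonneg _
  have y1 : ∀ i, y i ≤ 1 := fun i => by
    rw [← h1]
    exact hs.le_tsum i fun j _ => y0 j
  have e4 : (fun i => x i ^ 4) = fun i => y i ^ 2 := by funext i; simp only [hy]; ring
  have e6 : (fun i => x i ^ 6) = fun i => y i ^ 3 := by funext i; simp only [hy]; ring
  have s2 : Summable fun i => y i ^ 2 :=
    Summable.of_nonneg_of_le (fun i => by positivity) (fun i => by nlinarith [y0 i, y1 i]) hs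
  have s3 : Summable fun i => y i ^ 3 :=
    Summable.of_nonneg_of_le (fun i => by have := y0 i; positivity)
      (fun i => by nlinarith [y0 i, y1 i, mul_nonneg (y0 i) (y0 i), sq_nonneg (y i)]) s2
  rw [value_g₀, e4, e6, h1]
  set P2 := ∑' i, y i ^ 2 with hP2
  set P3 := ∑' i, y i ^ 3 with hP3
  have P2n : 0 ≤ P2 := tsum_nonneg fun i => sq_nonneg _
  have P3n : 0 ≤ P3 := tsum_nonneg fun i => by have := y0 i; positivity
  have ysq : ∀ i, y i ≤ Real.sqrt P2 := fun i => by
    apply Real.le_sqrt_of_sq_le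
    exact s2.le_tsum i fun j _ => sq_nonneg _
  have hle : P3 ≤ Real.sqrt P2 * P2 := by
    rw [hP3, hP2, ← tsum_mul_left]
    refine s3.tsum_le_tsum (fun i => ?_) (s2.mul_left _)
    have := mul_le_mul_of_nonneg_right (ysq i) (sq_nonneg (y i))
    calc y i ^ 3 = y i * y i ^ 2 := by ring
      _ ≤ _ := this
  have hle2 : P3 ^ 2 ≤ P2 ^ 3 := by
    have h := pow_le_pow_left₀ P3n hle 2
    rw [mul_pow, Real.sq_sqrt P2n] at h
    calc P3 ^ 2 ≤ P2 * P2 ^ 2 := h
      _ = P2 ^ 3 := by ring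
  rcases eq_or_ne P2 (1 / 4) with hq | hq
  · -- then `P3 < P2 / 2`
    have hsq : Real.sqrt P2 = 1 / 2 := by
      rw [hq, show (1 / 4 : ℝ) = (1 / 2) ^ 2 by norm_num]
      exact Real.sqrt_sq (by norm_num)
    rw [hsq] at ysq
    have hex : ∃ i, 0 < y i ∧ y i < 1 / 2 := by
      by_contra hcon
      push Not at hcon
      have : ∀ i, y i ^ 2 = 1 / 2 * y i := by
        intro i
        rcases (y0 i).eq_or_lt with h | h
        · rw [← h]; ring
        · have : y i = 1 / 2 := le_antisymm (ysq i) (hcon i h)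
          rw [this]; ring
      have h5 : P2 = 1 / 2 * ∑' i, y i := by
        rw [hP2, ← tsum_mul_left]
        exact tsum_congr this
      rw [h1, hq] at h5
      norm_num at h5
    obtain ⟨i, hi0, hi1⟩ := hex
    have hlt : P3 < 1 / 2 * P2 := by
      rw [hP3, hP2, ← tsum_mul_left]
      refine Summable.tsum_lt_tsum (i := i) (fun j => ?_) ?_ s3 (s2.mul_left _)
      · have := mul_le_mul_of_nonneg_right (ysq j) (sq_nonneg (y j))
        calc y j ^ 3 = y j * y j ^ 2 := by ring
          _ ≤ _ := this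
      · have := mul_lt_mul_of_pos_right hi1 (show 0 < y i ^ 2 by positivity)
        calc y i ^ 3 = y i * y i ^ 2 := by ring
          _ < _ := this
    rw [hq] at hlt ⊢
    nlinarith
  · have h6 : 0 < (4 * P2 - 1) ^ 2 := by
      apply sq_pos_of_ne_zero
      intro h
      apply hq
      linarith
    nlinarith

theorem homogeneous : MvPolynomial.IsWeightedHomogeneous (fun j : ℕ => 2 * (j + 1)) g₀ 12 := by
  have h16 : (16 : MvPolynomial ℕ ℝ) = MvPolynomial.C 16 := (map_ofNat MvPolynomial.C 16).symm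
  have h8 : (8 : MvPolynomial ℕ ℝ) = MvPolynomial.C 8 := (map_ofNat MvPolynomial.C 8).symm
  have X0 := MvPolynomial.isWeightedHomogeneous_X ℝ (fun j : ℕ => 2 * (j + 1)) 0
  have X1 := MvPolynomial.isWeightedHomogeneous_X ℝ (fun j : ℕ => 2 * (j + 1)) 1
  have X2 := MvPolynomial.isWeightedHomogeneous_X ℝ (fun j : ℕ => 2 * (j + 1)) 2
  have C0 : ∀ c : ℝ, MvPolynomial.IsWeightedHomogeneous (fun j : ℕ => 2 * (j + 1))
      (MvPolynomial.C c) 0 := fun c => MvPolynomial.isWeightedHomogeneous_C _ c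
  have e : g₀ = MvPolynomial.C 16 * MvPolynomial.X 1 ^ 3 +
      MvPolynomial.C (-16) * MvPolynomial.X 2 ^ 2 +
      MvPolynomial.C 16 * (MvPolynomial.X 1 ^ 2 * MvPolynomial.X 0 ^ 2) +
      MvPolynomial.C (-8) * (MvPolynomial.X 1 * MvPolynomial.X 0 ^ 4) +
      MvPolynomial.X 0 ^ 6 := by
    rw [g₀, map_neg, map_neg, ← h16, ← h8]
    ring
  rw [e]
  refine ((((?_ : MvPolynomial.IsWeightedHomogeneous _ _ 12).add ?_).add ?_).add ?_).add ?_
  · exact (C0 16).mul (X1.pow 3)
  · exact (C0 (-16)).mul (X2.pow 2)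
  · exact (C0 16).mul ((X1.pow 2).mul (X0.pow 2))
  · exact (C0 (-8)).mul (X1.mul (X0.pow 4))
  · exact X0.pow 6

/-- There is an even symmetric function `f = g(p_2, p_4, p_6)`, homogeneous of degree `12` and
strictly positive on the unit sphere of `ℓ²`, such that for every `k` the symmetric function
`p_2^k f` has a negative coefficient. -/
theorem result : ∃ g : MvPolynomial ℕ ℝ,
    MvPolynomial.IsWeightedHomogeneous (fun j : ℕ => 2 * (j + 1)) g 12 ∧
    (∀ x : ℕ → ℝ, (Summable fun i => x i ^ 2) → ∑' i, x i ^ 2 = 1 → 0 < value g x) ∧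
    ∀ k : ℕ, ∃ m : ℕ →₀ ℕ, coeff m (psum 2 ^ k * toSeries g) < 0 :=
  ⟨g₀, homogeneous, positive, exists_neg⟩

end Pool.Agent.Results.MP_2f3180_ag.StrictPositivity
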